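import Pool.Agent.N783.CF.WR

/-!
# Project WR (helper783): an integer whose conjugates are incongruent modulo all large primes
(helper288)
-/

set_option autoImplicit false

open Polynomial NumberField
open scoped Classical

namespace Pool.Agent.N288.WR
open Pool.Agent.N783.CF

theorem nz {Ω : Type} [Field Ω] [CharZero Ω] (x : integralClosure ℤ Ω) (hx : x ≠ 0) :
    ∃ D : ℤ, D ≠ 0 ∧ ∃ z : integralClosure ℤ Ω, x * z = (D : integralClosure ℤ Ω) := by
  have h1 : (Ideal.span {x}).comap (algebraMap ℤ (integralClosure ℤ Ω)) ≠ ⊥ :=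
    Ideal.comap_ne_bot_of_integral_mem hx (Ideal.mem_span_singleton_self x)
      (Algebra.IsIntegral.isIntegral x)
  obtain ⟨D, hD, hD0⟩ := Submodule.exists_mem_ne_zero_of_ne_bot h1
  rw [Ideal.mem_comap, Ideal.mem_span_singleton] at hD
  obtain ⟨z, hz⟩ := hD
  exact ⟨D, hD0, z, by rw [← hz]; simp⟩

/-- a prime number larger than a nonzero multiple is not in a prime ideal with the number -/
theorem pair {Ω : Type} [Field Ω] [CharZero Ω] (x : integralClosure ℤ Ω) (hx : x ≠ 0) :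
    ∃ W : ℕ, ∀ (q : ℕ) (𝔔 : Ideal (integralClosure ℤ Ω)), q.Prime → W < q → 𝔔.IsPrime →
      (q : integralClosure ℤ Ω) ∈ 𝔔 → x ∉ 𝔔 := by
  obtain ⟨D, hD0, z, hz⟩ := nz x hx
  refine ⟨D.natAbs, fun q 𝔔 hq hW hP hq𝔔 hx𝔔 => ?_⟩
  have hD : (D : integralClosure ℤ Ω) ∈ 𝔔 := by
    rw [← hz]
    exact 𝔔.mul_mem_right z hx𝔔
  have hcop : IsCoprime (D : ℤ) (q : ℤ) := by
    rw [Int.isCoprime_iff_gcd_eq_one, Int.gcd_comm]
    have h1 : Nat.Coprime q D.natAbs := by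
      rw [Nat.Prime.coprime_iff_not_dvd hq]
      intro h
      exact absurd (Nat.le_of_dvd (Int.natAbs_pos.2 hD0) h) (by omega)
    exact h1
  obtain ⟨a, b, hab⟩ := hcop
  apply hP.ne_top
  rw [Ideal.eq_top_iff_one]
  have h2 : (1 : integralClosure ℤ Ω) = (a : integralClosure ℤ Ω) * D + b * q := by
    have h3 := congrArg (fun t : ℤ => (t : integralClosure ℤ Ω)) hab
    push_cast at h3
    exact h3.symm
  rw [h2]
  exact 𝔔.add_mem (𝔔.mul_mem_left _ hD) (𝔔.mul_mem_left _ hq𝔔)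

theorem t_ALP : S_ALP := by
  intro K _ _ M _
  have hfin : FiniteDimensional K M := Module.Finite.of_restrictScalars_finite ℚ K M
  have hsep : Algebra.IsSeparable K M := inferInstance
  obtain ⟨pb⟩ : Nonempty (PowerBasis K M) := ⟨Field.powerBasisOfFiniteOfSeparable K M⟩
  have halg : IsAlgebraic ℤ pb.gen := by
    rw [IsFractionRing.isAlgebraic_iff ℤ ℚ M]
    exact Algebra.IsAlgebraic.isAlgebraic _
  obtain ⟨n, hn0, hn⟩ := halg.exists_integral_multiple
  obtain ⟨α, hα⟩ : ∃ α : 𝓞 M, (α : M) = n • pb.gen := ⟨⟨n • pb.gen, hn⟩, rfl⟩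
  have hinj : ∀ φ φ' : M →ₐ[K] AlgebraicClosure K, φ (α : M) = φ' (α : M) → φ = φ' := by
    intro φ φ' h
    rw [hα, map_zsmul, map_zsmul] at h
    apply pb.algHom_ext
    rw [zsmul_eq_mul, zsmul_eq_mul] at h
    have h1 : (n : AlgebraicClosure K) ≠ 0 := by
      exact_mod_cast hn0
    exact mul_left_cancel₀ h1 h
  have hfinH : Finite (M →ₐ[K] AlgebraicClosure K) := inferInstance
  have h : ∀ p : (M →ₐ[K] AlgebraicClosure K) × (M →ₐ[K] AlgebraicClosure K), ∃ W : ℕ,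
      ∀ (q : ℕ) (𝔔 : Ideal (integralClosure ℤ (AlgebraicClosure K))), q.Prime → W < q →
      𝔔.IsPrime → (q : integralClosure ℤ (AlgebraicClosure K)) ∈ 𝔔 → p.1 ≠ p.2 →
      ∀ y : integralClosure ℤ (AlgebraicClosure K),
        (y : AlgebraicClosure K) = p.1 (α : M) - p.2 (α : M) → y ∉ 𝔔 := by
    intro p
    by_cases hp : p.1 ≠ p.2 ∧ ∃ y : integralClosure ℤ (AlgebraicClosure K),
        (y : AlgebraicClosure K) = p.1 (α : M) - p.2 (α : M)
    · obtain ⟨hne, y, hy⟩ := hp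
      have hy0 : y ≠ 0 := by
        rintro rfl
        apply hne
        apply hinj
        rw [← sub_eq_zero, ← hy]
        rfl
      obtain ⟨W, hW⟩ := pair y hy0
      refine ⟨W, fun q 𝔔 hq h1 h2 h3 _ y' hy' => ?_⟩
      have : y' = y := Subtype.ext (hy'.trans hy.symm)
      rw [this]
      exact hW q 𝔔 hq h1 h2 h3
    · exact ⟨0, fun q 𝔔 _ _ _ _ hne y hy => absurd ⟨hne, y, hy⟩ hp⟩
  choose W hW using h
  obtain ⟨B, hB⟩ := (Set.finite_range W).bddAbove
  refine ⟨α, B, fun q 𝔔 hq hlt hP hq𝔔 φ φ' hne y hy => ?_⟩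
  exact hW (φ, φ') q 𝔔 hq (lt_of_le_of_lt (hB ⟨_, rfl⟩) hlt) hP hq𝔔 hne y hy

end Pool.Agent.N288.WR
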